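import Mathlib
import Pool.Agent.Q93.AL.Defs
import Pool.Agent.Q93.AL.Upper
import Pool.Agent.Q93.AL.Lower

/-!
# Alpern's strategy is optimal against a mobile hider

The game (`play`, `guess`, `secret`, `payoff`, `Searcher`, `Hider`, `BorelHider`) and Alpern's
strategy (`alpern`, `strat`, `IsAlpern`) are defined in `Pool.Agent.Q93.AL.Defs`, following the
problem file.
-/

namespace Pool.Agent.Results.MP_b21e06_an.AlpernOptimal

open Q93.AL MeasureTheory
open scoped ENNReal

universe u

/-- Let `lam` be Alpern's sequence with value `v = v*` (i.e. the pure strategy `strat lam` has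
payoff `v` against every fixed secret number outside the countable set of guesses). Then, in the
mobile-hider game with payoff `∑ |gₙ - h∞|`:
(1) `strat lam` guarantees `v` against every strategy of the mobile hider;
(2) for every mixed searcher strategy (a probability space `Ω` and a random pure strategy `s ω`,
all of whose guesses are random variables) the supremum over the (Borel) hider strategies of the
expected payoff is at least `v`; hence `strat lam` is optimal;
(3) more precisely, for every `ε > 0` there is a finite mixed strategy of the hider whose expected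
payoff is at least `v - ε` against every pure searcher strategy. -/
theorem result (lam : ℤ → ℝ) (v : ℝ) (h : IsAlpern lam v) :
    (∀ H, Hider H → payoff (strat lam) H ≤ ENNReal.ofReal v) ∧
    (∀ (Ω : Type u) [MeasurableSpace Ω] (μ : Measure Ω) [IsProbabilityMeasure μ]
      (s : Ω → List Ordering → ℝ), (∀ ω, Searcher (s ω)) → (∀ l, Measurable fun ω => s ω l) →
      ENNReal.ofReal v ≤ ⨆ (H : List ℝ → ℝ) (_ : BorelHider H), ∫⁻ ω, payoff (s ω) H ∂μ) ∧
    (∀ ε > 0, ∃ (ι : Type) (_ : Fintype ι) (p : ι → ℝ) (H : ι → List ℝ → ℝ),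
      (∀ i, 0 ≤ p i) ∧ ∑ i, p i = 1 ∧ (∀ i, BorelHider (H i)) ∧
      ∀ s, Searcher s →
        ENNReal.ofReal (v - ε) ≤ ∑ i, ENNReal.ofReal (p i) * payoff s (H i)) := by
  refine ⟨fun H hH => upper h hH, fun Ω _ μ _ s _ hs => lower μ hs h, fun ε hε => ?_⟩
  obtain ⟨N, ι, hι, p, H, h1, h2, h3, h4⟩ := finite_mix h hε
  exact ⟨ι, hι, p, H, h1, h2, fun i => (h3 i).hider, fun s _ => h4 s⟩

end Pool.Agent.Results.MP_b21e06_an.AlpernOptimal
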